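import Pool.Agent.PNB.Proof

open scoped Manifold ContDiff

namespace Pool.Agent.Results.MP_ab5edb_an.PolarLocus

open Pool.Agent.PNB

/-- **Main theorem.** There are a compact connected Kähler manifold `X` of dimension `29` with a
Kähler form `κ`, and a big class on `X`, represented by a smooth closed real `(1,1)`-form `θ`, such
that the polar locus of the class is different from its non-bounded locus. More precisely there is
a point `x` of the non-bounded locus, in the closure of the polar locus, at which the envelope
`V_θ` is finite. In particular the polar locus is not closed. -/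
theorem result :
    ∃ (E : Type) (_ : NormedAddCommGroup E) (_ : NormedSpace ℂ E) (_ : FiniteDimensional ℂ E)
      (X : Type) (_ : TopologicalSpace X) (_ : T2Space X) (_ : CompactSpace X)
      (_ : ConnectedSpace X) (_ : ChartedSpace E X) (_ : IsManifold 𝓘(ℂ, E) ω X)
      (κ θ : ClosedForm E X),
      Module.finrank ℂ E = 29 ∧ κ.IsKahler ∧ θ.IsBig κ ∧ polarLocus θ ≠ nonBoundedLocus θ ∧
      ∃ x ∈ nonBoundedLocus θ, x ∈ closure (polarLocus θ) ∧ ⊥ < envelope θ x :=
  ⟨E29, inferInstance, inferInstance, inferInstance, Tot, inferInstance, inferInstance,
    inferInstance, inferInstance, inferInstance, inferInstance, kapForm, thetaForm, finrank_E29,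
    isKahler_kapForm, isBig, main.1, main.2⟩

end Pool.Agent.Results.MP_ab5edb_an.PolarLocus
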